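import Pool.Agent.W607.Defs
import Pool.Agent.TH508.NB.Morse

/-! The formal implicit function theorem in `F[[u,v]]`. -/

set_option autoImplicit false

namespace Pool.Agent.TH525.NS

open MvPolynomial Pool.Agent.W607 Pool.Agent.TH508.NB

variable {σ : Type} {F : Type} [Field F]

theorem O_sum {ι : Type} (s : Finset ι) {n : ℕ} {f : ι → MvPowerSeries (Fin 2) F}
    (h : ∀ i ∈ s, O n (f i)) : O n (∑ i ∈ s, f i) := by
  classical
  intro d hd
  rw [map_sum]
  exact Finset.sum_eq_zero fun i hi => h i hi d hd

/-- values of a polynomial at near points are near -/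
theorem aeval_near {n : ℕ} (x x' : σ → MvPowerSeries (Fin 2) F)
    (h : ∀ j, O n (x' j - x j)) (Q : MvPolynomial σ F) : O n (aeval x' Q - aeval x Q) := by
  induction Q using MvPolynomial.induction_on with
  | C a =>
    rw [aeval_C, aeval_C, sub_self]
    exact fun d _ => map_zero _
  | add p q hp hq =>
    rw [map_add, map_add]
    have e : aeval x' p + aeval x' q - (aeval x p + aeval x q) =
        (aeval x' p - aeval x p) + (aeval x' q - aeval x q) := by ring
    rw [e]
    exact hp.add hq
  | mul_X p j hp =>
    rw [map_mul, map_mul, aeval_X, aeval_X]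
    have e : aeval x' p * x' j - aeval x p * x j =
        (aeval x' p - aeval x p) * x' j + aeval x p * (x' j - x j) := by ring
    rw [e]
    exact hp.mul_right.add (h j).mul_left

theorem aeval_mw (w : σ → F) (x : σ → MvPowerSeries (Fin 2) F)
    (hx : ∀ j, O 1 (x j - MvPowerSeries.C (w j))) {Q : MvPolynomial σ F} (hQ : Q ∈ mw w) :
    O 1 (aeval x Q) := by
  unfold mw at hQ
  induction hQ using Submodule.span_induction with
  | mem P hP =>
    obtain ⟨j, rfl⟩ := hP
    rw [map_sub, aeval_X, aeval_C]
    exact hx j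
  | zero => rw [map_zero]; exact fun d _ => map_zero _
  | add p q _ _ hp hq => rw [map_add]; exact hp.add hq
  | smul a p _ hp => rw [smul_eq_mul, map_mul]; exact hp.mul_left

theorem aeval_near_sq {n : ℕ} (hn : 1 ≤ n) (w : σ → F) (x x' : σ → MvPowerSeries (Fin 2) F)
    (hx : ∀ j, O 1 (x j - MvPowerSeries.C (w j)))
    (h : ∀ j, O n (x' j - x j)) {Q : MvPolynomial σ F} (hQ : Q ∈ (mw w) ^ 2) :
    O (n + 1) (aeval x' Q - aeval x Q) := by
  have hx' : ∀ j, O 1 (x' j - MvPowerSeries.C (w j)) := by
    intro j
    have e : x' j - MvPowerSeries.C (w j) = (x' j - x j) + (x j - MvPowerSeries.C (w j)) := by ring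
    rw [e]
    exact ((h j).mono hn).add (hx j)
  rw [pow_two] at hQ
  refine Submodule.mul_induction_on hQ ?_ ?_
  · intro p hp q hq
    rw [map_mul, map_mul]
    have e : aeval x' p * aeval x' q - aeval x p * aeval x q =
        (aeval x' p - aeval x p) * aeval x' q + aeval x p * (aeval x' q - aeval x q) := by ring
    rw [e]
    refine O.add ?_ ?_
    · exact (aeval_near x x' h p).mul (aeval_mw w x' hx' hq)
    · exact ((aeval_mw w x hx hp).mul (aeval_near x x' h q)).mono (by omega)
  · intro p q hp hq
    rw [map_add, map_add]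
    have e : aeval x' p + aeval x' q - (aeval x p + aeval x q) =
        (aeval x' p - aeval x p) + (aeval x' q - aeval x q) := by ring
    rw [e]
    exact hp.add hq

theorem exists_dual {σ ι : Type} [Fintype σ] [Fintype ι] [DecidableEq ι] {g : ι → σ → F}
    (hg : LinearIndependent F g) :
    ∃ A : σ → ι → F, ∀ i i' : ι, ∑ j, g i j * A j i' = if i = i' then 1 else 0 := by
  classical
  have hinj : Function.Injective (Fintype.linearCombination F g) :=
    linearIndependent_iff_injective_fintypeLinearCombination.1 hg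
  obtain ⟨U, hU⟩ := LinearMap.exists_leftInverse_of_injective (Fintype.linearCombination F g)
    (LinearMap.ker_eq_bot.2 hinj)
  refine ⟨fun j i' => U (Pi.single j 1) i', fun i i' => ?_⟩
  have h1 : U (g i) = Pi.single i 1 := by
    have h2 := LinearMap.congr_fun hU (Pi.single i (1 : F))
    rw [LinearMap.comp_apply, Fintype.linearCombination_apply_single, one_smul,
      LinearMap.id_apply] at h2
    exact h2
  have h3 : g i = ∑ j, g i j • (Pi.single j (1 : F) : σ → F) := by
    ext k
    simp [Finset.sum_apply, Pi.single_apply]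
  have h4 : U (g i) i' = ∑ j, g i j * U (Pi.single j 1) i' := by
    conv_lhs => rw [h3]
    rw [map_sum, Finset.sum_apply]
    simp
  rw [← h4, h1, Pi.single_apply]
  simp [eq_comm]

theorem formal_implicit {σ ι : Type} [Fintype σ] [Fintype ι] {F : Type} [Field F] (w : σ → F)
    (G : ι → MvPolynomial σ F) (g : ι → σ → F)
    (hG : ∀ i, G i - ∑ j, C (g i j) * (X j - C (w j)) ∈ (mw w) ^ 2)
    (hg : LinearIndependent F g) (y : ι → MvPowerSeries (Fin 2) F) (hy : ∀ i, O 1 (y i)) :
    ∃ x : σ → MvPowerSeries (Fin 2) F, (∀ j, O 1 (x j - MvPowerSeries.C (w j))) ∧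
      ∀ i, aeval x (G i) = y i := by
  classical
  obtain ⟨A, hA⟩ := exists_dual hg
  -- the linear part
  have hlin : ∀ (i : ι) (x : σ → MvPowerSeries (Fin 2) F),
      aeval x (∑ j, C (g i j) * (X j - C (w j)) : MvPolynomial σ F) =
        ∑ j, MvPowerSeries.C (g i j) * (x j - MvPowerSeries.C (w j)) := by
    intro i x
    rw [map_sum]
    refine Finset.sum_congr rfl fun j _ => ?_
    rw [map_mul, map_sub, aeval_X, aeval_C, aeval_C]
    rfl
  -- the Newton step
  have hstep : ∀ (n : ℕ) (x : σ → MvPowerSeries (Fin 2) F),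
      (∀ j, O 1 (x j - MvPowerSeries.C (w j))) → (∀ i, O (n + 1) (aeval x (G i) - y i)) →
      ∃ x' : σ → MvPowerSeries (Fin 2) F, (∀ j, O 1 (x' j - MvPowerSeries.C (w j))) ∧
        (∀ i, O (n + 2) (aeval x' (G i) - y i)) ∧ ∀ j, O (n + 1) (x' j - x j) := by
    intro n x hx hn
    let e : ι → MvPowerSeries (Fin 2) F := fun i => aeval x (G i) - y i
    let x' : σ → MvPowerSeries (Fin 2) F := fun j => x j - ∑ i, MvPowerSeries.C (A j i) * e i
    have hd : ∀ j, x' j - x j = -∑ i, MvPowerSeries.C (A j i) * e i := by
      intro j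
      show x j - ∑ i, MvPowerSeries.C (A j i) * e i - x j = _
      ring
    have hO : ∀ j, O (n + 1) (x' j - x j) := by
      intro j
      rw [hd]
      exact (O_sum _ fun i _ => (hn i).mul_left).neg
    refine ⟨x', ?_, ?_, hO⟩
    · intro j
      have e1 : x' j - MvPowerSeries.C (w j) = (x' j - x j) + (x j - MvPowerSeries.C (w j)) := by
        ring
      rw [e1]
      exact ((hO j).mono (by omega)).add (hx j)
    · intro i
      have hsplit : ∀ z : σ → MvPowerSeries (Fin 2) F, aeval z (G i) =
          aeval z (G i - ∑ j, C (g i j) * (X j - C (w j))) +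
            ∑ j, MvPowerSeries.C (g i j) * (z j - MvPowerSeries.C (w j)) := by
        intro z
        rw [← hlin i z, ← map_add, sub_add_cancel]
      have h1 := aeval_near_sq (n := n + 1) (by omega) w x x' hx hO (hG i)
      have h2 : (∑ j, MvPowerSeries.C (g i j) * (x' j - MvPowerSeries.C (w j))) -
          ∑ j, MvPowerSeries.C (g i j) * (x j - MvPowerSeries.C (w j)) = -e i := by
        rw [← Finset.sum_sub_distrib]
        have h3 : ∀ j, MvPowerSeries.C (g i j) * (x' j - MvPowerSeries.C (w j)) -
            MvPowerSeries.C (g i j) * (x j - MvPowerSeries.C (w j)) =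
            -∑ i', MvPowerSeries.C (g i j * A j i') * e i' := by
          intro j
          have : MvPowerSeries.C (g i j) * (x' j - MvPowerSeries.C (w j)) -
              MvPowerSeries.C (g i j) * (x j - MvPowerSeries.C (w j)) =
              MvPowerSeries.C (g i j) * (x' j - x j) := by ring
          rw [this, hd, mul_neg, Finset.mul_sum]
          congr 1
          refine Finset.sum_congr rfl fun i' _ => ?_
          rw [map_mul]
          ring
        rw [Finset.sum_congr rfl fun j _ => h3 j, Finset.sum_neg_distrib, Finset.sum_comm]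
        congr 1
        have h4 : ∀ i', ∑ j, MvPowerSeries.C (g i j * A j i') * e i' =
            MvPowerSeries.C (if i = i' then (1 : F) else 0) * e i' := by
          intro i'
          rw [← Finset.sum_mul, ← map_sum, hA]
        rw [Finset.sum_congr rfl fun i' _ => h4 i']
        rw [Finset.sum_eq_single i]
        · simp
        · intro i' _ hne
          rw [if_neg (Ne.symm hne), map_zero, zero_mul]
        · intro h
          exact absurd (Finset.mem_univ i) h
      have h5 : aeval x' (G i) - y i =
          aeval x' (G i - ∑ j, C (g i j) * (X j - C (w j))) -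
            aeval x (G i - ∑ j, C (g i j) * (X j - C (w j))) := by
        have h6 : e i = aeval x (G i) - y i := rfl
        have h7 := hsplit x'
        have h8 := hsplit x
        linear_combination h7 + h2 + h6 - h8
      rw [h5]
      exact h1
  -- the sequence
  let St (n : ℕ) := {x : σ → MvPowerSeries (Fin 2) F //
    (∀ j, O 1 (x j - MvPowerSeries.C (w j))) ∧ ∀ i, O (n + 1) (aeval x (G i) - y i)}
  have hnext : ∀ n (x : St n), ∃ x' : St (n + 1), ∀ j, O (n + 1) (x'.1 j - x.1 j) := by
    rintro n ⟨x, hx, hn⟩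
    obtain ⟨x', h1, h2, h3⟩ := hstep n x hx hn
    exact ⟨⟨x', h1, h2⟩, h3⟩
  choose nx hnx using hnext
  have hzero : (∀ j, O 1 ((fun j => (MvPowerSeries.C (w j) : MvPowerSeries (Fin 2) F)) j -
      MvPowerSeries.C (w j))) := by
    intro j
    simp only [sub_self]
    exact fun d _ => map_zero _
  have hinit : ∀ i, O (0 + 1) (aeval (fun j => (MvPowerSeries.C (w j) : MvPowerSeries (Fin 2) F))
      (G i) - y i) := by
    intro i
    refine O.sub ?_ (hy i)
    refine aeval_mw w _ hzero ?_
    have h1 : G i = (G i - ∑ j, C (g i j) * (X j - C (w j))) +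
        ∑ j, C (g i j) * (X j - C (w j)) := by ring
    rw [h1]
    refine Ideal.add_mem _ (Ideal.pow_le_self two_ne_zero (hG i)) ?_
    refine Ideal.sum_mem _ fun j _ => Ideal.mul_mem_left _ _ ?_
    exact Ideal.subset_span ⟨j, rfl⟩
  let s : (n : ℕ) → St n := fun n => Nat.rec
    ⟨fun j => (MvPowerSeries.C (w j) : MvPowerSeries (Fin 2) F), hzero, hinit⟩
    (fun n p => nx n p) n
  have hs : ∀ n, s (n + 1) = nx n (s n) := fun n => rfl
  have hlim : ∀ j, ∃ l, ∀ m, O (m + 1) (l - (s m).1 j) := fun j =>
    exists_limit (fun n => (s n).1 j) (fun m => by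
      rw [hs]
      exact hnx m (s m) j)
  choose x hx using hlim
  refine ⟨x, fun j => hx j 0, fun i => ?_⟩
  rw [← sub_eq_zero]
  apply eq_zero_of_O
  intro n
  have e : aeval x (G i) - y i = (aeval x (G i) - aeval (s n).1 (G i)) +
      (aeval (s n).1 (G i) - y i) := by ring
  rw [e]
  refine O.mono (Nat.le_succ n) (O.add ?_ ((s n).2.2 i))
  exact aeval_near (s n).1 x (fun j => hx j n) (G i)

end Pool.Agent.TH525.NS
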